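import Pool.Agent.helper94.T1.AP1

/-! Row t1:FN1 (MP_07c750_an): the inequality for an eigenfunction. -/

set_option autoImplicit false

open scoped MatrixGroups ContDiff Topology UpperHalfPlane ComplexConjugate
open UpperHalfPlane MeasureTheory Filter Set

namespace Pool.Agent.T1

open Pool.Agent.RS Pool.Agent.MS Pool.Agent.HV

theorem FN1_aa (s t : ℝ) : aM (s + t) = aM s * aM t := by
  ext i j
  fin_cases i <;> fin_cases j <;> simp [aM, Matrix.mul_apply, Fin.sum_univ_two, ← Real.exp_add] <;> ring_nf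

theorem FN1_BA {α : ℝ → ℝ} (h : BA (1 / 8) α) : BA (1 / 4) α :=
  ⟨⟨h.1.1, fun x hx => (h.1.2 x hx).trans (by norm_num)⟩, h.2⟩

theorem FN1_Kc (p : ℕ → Bool) (M : ℕ) : Kc p 0 M ≤ M := by
  unfold Kc
  refine (Finset.card_filter_le _ _).trans ?_
  simp

theorem FN1_Dp (y0 M : ℕ) (p : ℕ → Bool) : (Dp y0 M p).card ≤ M := by
  unfold Dp
  refine (Finset.card_filter_le _ _).trans ?_
  simp

theorem FN1_VV (y0 M : ℕ) (hM : 1 ≤ M) (p : ℕ → Bool) : 0 ≤ VV y0 M p ∧ VV y0 M p ≤ 1 := by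
  have h1 : (Kc p 0 M : ℝ) ≤ M := by exact_mod_cast FN1_Kc p M
  have h2 : ((Dp y0 M p).card : ℝ) ≤ M := by exact_mod_cast FN1_Dp y0 M p
  have h3 : (1 : ℝ) ≤ M := by exact_mod_cast hM
  have h4 : (0 : ℝ) ≤ (Kc p 0 M : ℝ) := by positivity
  have h5 : (0 : ℝ) ≤ ((Dp y0 M p).card : ℝ) := by positivity
  unfold VV
  constructor
  · apply div_nonneg _ (by linarith)
    split_ifs <;> positivity
  · rw [div_le_one (by linarith)]
    split_ifs
    · linarith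
    · linarith

theorem FN1_WW (M : ℕ) (hM : 1 ≤ M) (p : ℕ → Bool) : 0 ≤ (Kc p 0 M : ℝ) / (2 * M) ∧ (Kc p 0 M : ℝ) / (2 * M) ≤ 1 := by
  have h1 : (Kc p 0 M : ℝ) ≤ M := by exact_mod_cast FN1_Kc p M
  have h3 : (1 : ℝ) ≤ M := by exact_mod_cast hM
  refine ⟨by positivity, ?_⟩
  rw [div_le_one (by linarith)]
  linarith

/-- the number of blocks -/
theorem FN1_M' {L n w0 : ℝ} (hn : 0 < n) (h : 0 ≤ w0 * L) :
    ((⌊w0 * L / n⌋₊ : ℕ) : ℝ) * n ≤ w0 * L ∧ w0 * L < (((⌊w0 * L / n⌋₊ : ℕ) : ℝ) + 1) * n := by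
  constructor
  · have := Nat.floor_le (div_nonneg h hn.le)
    rwa [le_div_iff₀ hn] at this
  · have := Nat.lt_floor_add_one (w0 * L / n)
    rwa [div_lt_iff₀ hn] at this

/-- the final comparison -/
theorem FN1_end {Ω : Type} [Fintype Ω] (P V W D : Ω → ℝ) (E E' ε' s c6 : ℝ)
    (hV : ∀ x, V x = W x + D x) (hD : c6 ≤ ∑ x, P x * D x)
    (hW : (E - ε') / 2 ≤ ∑ x, P x * W x) (hs : ∑ x, P x * V x + ∑ x, P x * W x ≤ s + 5 * ε')
    (hE : s + 6 * ε' ≤ E') : E ≤ E' - c6 := by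
  have h1 : ∑ x, P x * V x = ∑ x, P x * W x + ∑ x, P x * D x := by
    rw [← Finset.sum_add_distrib]
    exact Finset.sum_congr rfl fun x _ => by rw [hV x]; ring
  linarith

theorem FN1_ii (μ : Measure SL(2, ℝ)) [IsFiniteMeasure μ] {f : SL(2, ℝ) → ℝ} (hf : Continuous f) {B : ℝ}
    (hB : ∀ x, |f x| ≤ B) : Integrable f μ :=
  Integrable.of_bound hf.aestronglyMeasurable B (Eventually.of_forall fun x => by
    rw [Real.norm_eq_abs]
    exact hB x)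

open Classical in
/-- labels as a finite probability space -/
theorem FN1_lab (h4 : PSE_stmt) (μ : Measure SL(2, ℝ)) [IsFiniteMeasure μ] (κ : SL(2, ℝ) → ℝ) (hκ : Continuous κ)
    (h01 : ∀ g, 0 ≤ κ g ∧ κ g ≤ 1) (N0 M : ℕ) (hPc : ∀ S, Continuous (Ps κ N0 M S))
    (hP1 : ∀ S g, 0 ≤ Ps κ N0 M S g ∧ Ps κ N0 M S g ≤ 1) (h : SL(2, ℝ)) :
    (∀ S, ∫ g, Ps κ N0 M S (g * h) ∂μ = ∑ p ∈ S, ∫ g, Ps κ N0 M {p} (g * h) ∂μ) ∧
    (∀ p, 0 ≤ ∫ g, Ps κ N0 M {p} (g * h) ∂μ) ∧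
    ∑ p : Fin M → Bool, ∫ g, Ps κ N0 M {p} (g * h) ∂μ = ∫ _g, (1 : ℝ) ∂μ ∧
    ∑ p : Fin M → Bool, (∫ g, Ps κ N0 M {p} (g * h) ∂μ) * (Kc (ex p) 0 M : ℝ) =
      ∑ i ∈ Finset.range M, ∫ g, κ (g * (h * aM ((i : ℕ) * Real.log N0))) ∂μ := by
  have hc : ∀ (S : Finset (Fin M → Bool)), Continuous fun g => Ps κ N0 M S (g * h) := fun S =>
    (hPc S).comp (continuous_id.mul continuous_const)
  have hi : ∀ (S : Finset (Fin M → Bool)), Integrable (fun g => Ps κ N0 M S (g * h)) μ := fun S =>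
    FN1_ii μ (hc S) (B := 1) fun g => by
      rw [abs_of_nonneg (hP1 S _).1]
      exact (hP1 S _).2
  have hκi : ∀ k : SL(2, ℝ), Integrable (fun g => κ (g * k)) μ := fun k =>
    FN1_ii μ (hκ.comp (continuous_id.mul continuous_const)) (B := 1) fun g => by
      rw [abs_of_nonneg (h01 _).1]
      exact (h01 _).2
  refine ⟨?_, ?_, ?_, ?_⟩
  · intro S
    rw [← integral_finsetSum _ (fun p _ => hi {p})]
    exact integral_congr_ae (Eventually.of_forall fun g => ((h4 κ N0 M (g * h) h01).1 S).2)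
  · intro p
    exact integral_nonneg fun g => (hP1 _ _).1
  · rw [← integral_finsetSum _ (fun p _ => hi {p})]
    exact integral_congr_ae (Eventually.of_forall fun g => (h4 κ N0 M (g * h) h01).2.1)
  · have e1 : ∀ p : Fin M → Bool, (∫ g, Ps κ N0 M {p} (g * h) ∂μ) * (Kc (ex p) 0 M : ℝ) =
        ∫ g, Ps κ N0 M {p} (g * h) * (Kc (ex p) 0 M : ℝ) ∂μ := fun p => (integral_mul_const _ _).symm
    rw [Finset.sum_congr rfl fun p _ => e1 p, ← integral_finsetSum _ (fun p _ => (hi {p}).mul_const _),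
      ← integral_finsetSum _ (fun i _ => hκi _)]
    refine integral_congr_ae (Eventually.of_forall fun g => ?_)
    have := (h4 κ N0 M (g * h) h01).2.2
    simp only [mul_assoc] at this ⊢
    exact this

theorem FN1_N (N0 M : ℕ) (hN : 2 ≤ N0) (r w : ℝ) (hr : 0 < r) (h : ((M : ℝ) + 1) * Real.log N0 ≤ w * Real.log r) :
    (N0 : ℝ) ^ (M + 1) ≤ r ^ w := by
  have hN0 : (0 : ℝ) < N0 := by
    have : (2 : ℝ) ≤ N0 := by exact_mod_cast hN
    linarith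
  rw [Real.rpow_def_of_pos hr, ← Real.log_le_iff_le_exp (by positivity), Real.log_pow]
  push_cast
  linarith

open Classical in
theorem FN1_D (P : Type) [Fintype P] (f : P → ℝ) (M y0 : ℕ) (lab : P → ℕ → Bool) (c4 c5 : ℝ) (hM : 1 ≤ M) (hf : ∀ p, 0 ≤ f p)
    (hc4 : 0 ≤ c4)
    (h : c5 ≤ ∑ p ∈ Finset.univ.filter (fun p => c4 * (M : ℕ) ≤ ((Dp y0 M (lab p)).card : ℝ) ∧
      M ≤ 100 * Kc (lab p) (M / 2) M), f p) :
    c4 * c5 / 16160000 ≤ ∑ p, f p * ((if M ≤ 100 * Kc (lab p) (M / 2) M then ((Dp y0 M (lab p)).card : ℝ) / 16160000 else 0) / M) := by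
  have hM0 : (0 : ℝ) < M := by
    have : (1 : ℝ) ≤ M := by exact_mod_cast hM
    linarith
  have h1 : c4 * c5 / 16160000 ≤ ∑ p ∈ Finset.univ.filter (fun p => c4 * (M : ℕ) ≤ ((Dp y0 M (lab p)).card : ℝ) ∧
      M ≤ 100 * Kc (lab p) (M / 2) M), f p * (c4 / 16160000) := by
    rw [← Finset.sum_mul]
    have := mul_le_mul_of_nonneg_right h (by positivity : (0 : ℝ) ≤ c4 / 16160000)
    linarith
  refine h1.trans ?_
  refine le_trans (Finset.sum_le_sum (g := fun p => f p * ((if M ≤ 100 * Kc (lab p) (M / 2) M then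
    ((Dp y0 M (lab p)).card : ℝ) / 16160000 else 0) / M)) ?_) ?_
  · intro p hp
    rw [Finset.mem_filter] at hp
    apply mul_le_mul_of_nonneg_left _ (hf p)
    rw [if_pos hp.2.2, le_div_iff₀ hM0]
    have := hp.2.1
    linarith
  · apply Finset.sum_le_sum_of_subset_of_nonneg (Finset.filter_subset _ _)
    intro p _ _
    apply mul_nonneg (hf p)
    apply div_nonneg _ hM0.le
    split_ifs <;> positivity

theorem FN1_proof (h1 : KLW_stmt) (h2 : LYC_stmt) (h3 : LBL_stmt) (h4 : PSE_stmt) (h5 : MS.INW_stmt) (h6 : MS.NM3_stmt)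
    (h7 : PSL_stmt) (hFL0 : RS.FL0_stmt) (hCV1 : RS.CV1_stmt) (hGBD : RS.GBD_stmt) (hGFD : RS.GFD_stmt) : FN1_stmt := by
  classical
  obtain ⟨y0, hy0, hKLW⟩ := h1
  refine ⟨y0, hy0, ?_⟩
  intro β α hβ hα
  have hα4 : BA (1 / 4) α := FN1_BA hα
  obtain ⟨w, hw0, hw1, hKLW⟩ := hKLW β α hβ hα
  obtain ⟨c4, c5, δ1, hc4, hc5, hδ1, hLBL⟩ := h3 β α hβ hα (w / 3) y0 (by positivity) (by linarith) hy0
  refine ⟨c4 * c5 / 16160000, δ1, by positivity, hδ1, ?_⟩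
  intro ε hε Γ F hΓ hFd
  obtain ⟨a1, ha1, hLBL⟩ := hLBL Γ F hΓ hFd
  refine ⟨min a1 (1 / 8000), lt_min ha1 (by norm_num), ?_⟩
  intro a Cκ ha haa hCκ
  obtain ⟨ε', hε'0, hε'1, hε'2⟩ : ∃ ε' : ℝ, 0 < ε' ∧ ε' ≤ ε / 20 ∧ ε' ≤ 1 / 100 :=
    ⟨min (ε / 20) (1 / 100), lt_min (by positivity) (by norm_num), min_le_left _ _, min_le_right _ _⟩
  obtain ⟨nK, hnK⟩ := hKLW Γ F hΓ hFd a ε' Cκ ha (haa.trans (min_le_right _ _)) hε'0 hCκ
  obtain ⟨nL, hnL⟩ := hLBL a Cκ ha (haa.trans (min_le_left _ _)) hCκ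
  refine ⟨max (max nK nL) 2, ?_⟩
  intro N0 ρ A κ κa κn κl hN0 hρ0 hρ1 hCO
  have hN2 : 2 ≤ N0 := (le_max_right _ _).trans hN0
  have hNK : nK ≤ N0 := ((le_max_left _ _).trans (le_max_left _ _)).trans hN0
  have hNL : nL ≤ N0 := ((le_max_right _ _).trans (le_max_left _ _)).trans hN0
  have hN2' : (2 : ℝ) ≤ N0 := by exact_mod_cast hN2
  obtain ⟨r2, M0, hr2, hM0, hKL⟩ := hnK N0 ρ A κ κa κn κl hNK hρ0 hρ1 hCO
  have hCO' : CO Γ a Cκ (1 / 1000) N0 A κ κa κn κl :=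
    ⟨hCO.ca.trans (Real.rpow_le_rpow_of_exponent_le (by linarith) (by linarith)), hCO.sf, hCO.k01, hCO.ev, hCO.kn,
      hCO.kl, hCO.sp⟩
  obtain ⟨R1, hR1, hLB⟩ := hnL N0 A κ κa κn κl hNL hCO'
  obtain ⟨r0, hr0, hNM⟩ := h6 Γ F α β hΓ hFd hα4 hβ ε' hε'0
  obtain ⟨R3, hR3, hSt⟩ := APL_sta h5 Γ F β α hΓ hFd hβ hα4 (Cκ * N0) ε' (by positivity) hε'0
  have hn : 0 < Real.log N0 := Real.log_pos (by linarith)
  refine ⟨max (max (max r2 R1) (max r0 R3)) (Real.exp (max 16 (3 * ((M0 : ℝ) + 1) * Real.log N0 / w))),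
    hr2.trans ((le_max_left _ _).trans ((le_max_left _ _).trans (le_max_left _ _))), ?_⟩
  intro r t1 φ hr hφ hnn ht1 ht2 hE1 hBd
  have hrr2 : r2 ≤ r := ((le_max_left _ _).trans ((le_max_left _ _).trans (le_max_left _ _))).trans hr
  have hrR1 : R1 ≤ r := ((le_max_right _ _).trans ((le_max_left _ _).trans (le_max_left _ _))).trans hr
  have hrr0 : r0 ≤ r := ((le_max_left _ _).trans ((le_max_right _ _).trans (le_max_left _ _))).trans hr
  have hrR3 : R3 ≤ r := ((le_max_right _ _).trans ((le_max_right _ _).trans (le_max_left _ _))).trans hr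
  have hrpos : 0 < r := by linarith
  have hexp := (le_max_right (max (max r2 R1) (max r0 R3)) _).trans hr
  rw [← Real.le_log_iff_exp_le hrpos] at hexp
  have hL16 : 16 ≤ Real.log r := (le_max_left _ _).trans hexp
  have hLM : 3 * ((M0 : ℝ) + 1) * Real.log N0 / w ≤ Real.log r := (le_max_right _ _).trans hexp
  set L := Real.log r with hL
  have hwL : 0 ≤ w / 3 * L := by positivity
  obtain ⟨hM'1, hM'2⟩ := FN1_M' hn hwL
  set M' := ⌊w / 3 * L / Real.log N0⌋₊ with hM'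
  have hM'3 : (M0 : ℝ) + 1 ≤ w / 3 * L / Real.log N0 := by
    rw [le_div_iff₀ hn]
    rw [div_le_iff₀ hw0] at hLM
    linarith
  have hM'4 : M0 + 1 ≤ M' := Nat.le_floor (by push_cast; exact hM'3)
  have hM1 : 1 ≤ 2 * M' := by omega
  have hMM0 : M0 ≤ 2 * M' := by omega
  have hM'5 : (1 : ℝ) ≤ M' := by exact_mod_cast (by omega : 1 ≤ M')
  have hnM : Real.log N0 ≤ w / 3 * L := by nlinarith
  have hNM' : (N0 : ℝ) ^ (2 * M' + 1) ≤ r ^ w := by
    apply FN1_N N0 (2 * M') hN2 r w hrpos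
    push_cast
    rw [← hL]
    nlinarith
  have hsq : Real.sqrt L ≤ L / 4 := by
    rw [Real.sqrt_le_left (by linarith)]
    nlinarith
  have hwL1 : w * L ≤ 1 / 100 * L := mul_le_mul_of_nonneg_right hw1 (by linarith)
  have hwL0 : 0 ≤ w * L := by positivity
  have ht_a : w * Real.log r ≤ L / 2 := by
    rw [← hL]
    linarith
  have ht_b : L / 2 ≤ (1 - w) * Real.log r := by
    rw [← hL]
    linarith
  have hK := hKL r (2 * M') φ hrr2 hMM0 hNM' hφ hnn (L / 2)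
  have hB := hLB r t1 φ hrR1 hφ hnn ht1 ht2 hE1 hBd (L / 2) M' (by rw [← hL]; linarith) (by rw [← hL]; linarith)
    (by rw [← hL]; exact hM'1) (by rw [← hL]; exact hM'2)
  obtain ⟨hpc, hpb⟩ := APL_pfm hFL0 hCV1 hGBD hΓ hβ hα4 (r := r) hφ
  haveI : IsFiniteMeasure (PM F β α r φ) := PM_fin hGFD hΓ hFd hrpos.le hpc hpb
  have hint : ∀ f : SL(2, ℝ) → ℝ, ∫ g, f g ∂(PM F β α r φ) = EX F β α r φ f := PM_int F β α r φ hrpos.le hpc
  have hPS := fun S => h7 Γ κ κa κn κl Cκ N0 (2 * M') S hCO.sf hCO.k01 hCO.kn hCO.kl hN2 (by linarith)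
  have hPc : ∀ S, Continuous (Ps κ N0 (2 * M') S) := by
    intro S
    obtain ⟨⟨Ψa, Ψn, Ψl, hSF, -⟩, -⟩ := hPS S
    exact hSF.i0.1
  have hP1 : ∀ S g, 0 ≤ Ps κ N0 (2 * M') S g ∧ Ps κ N0 (2 * M') S g ≤ 1 := fun S g => (hPS S).2.1 g
  obtain ⟨l1, l2, l3, l4⟩ := FN1_lab h4 (PM F β α r φ) κ hCO.sf.i0.1 hCO.k01 N0 (2 * M') hPc hP1 (aM (L / 2))
  set P : (Fin (2 * M') → Bool) → ℝ := fun p => ∫ g, Ps κ N0 (2 * M') {p} (g * aM (L / 2)) ∂(PM F β α r φ) with hP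
  have hLW : ∀ S, LW F β α r φ κ N0 (2 * M') (L / 2) S = ∑ p ∈ S, P p := by
    intro S
    unfold LW
    rw [← hint]
    exact l1 S
  -- total mass
  have hone : |∑ p, P p - 1| ≤ ε' := by
    rw [l3, hint]
    have hm := (hNM r hrr0).2 φ hφ
    rw [hnn, mul_one] at hm
    have e : EX F β α r φ (fun _ => (1 : ℝ)) = r * qn F (pc β α) r φ := by
      unfold EX qn pf
      simp only [one_mul]
    rw [e]
    exact hm
  -- all times
  have hM'L : (M' : ℝ) * Real.log N0 ≤ 1 / 300 * L := by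
    have : w / 3 * L ≤ 1 / 300 * L := mul_le_mul_of_nonneg_right (by linarith) (by linarith)
    linarith
  have hst : ∀ i ∈ Finset.range (2 * M'), EX F β α r φ (fun g => κ (g * aM t1)) - ε' ≤
      ∫ g, κ (g * (aM (L / 2) * aM ((i : ℕ) * Real.log N0))) ∂(PM F β α r φ) := by
    intro i hi
    rw [Finset.mem_range] at hi
    rw [← FN1_aa, hint]
    have hi' : (i : ℝ) ≤ 2 * M' := by exact_mod_cast hi.le
    have hi0 : (0 : ℝ) ≤ (i : ℝ) * Real.log N0 := by positivity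
    have hi1 : (i : ℝ) * Real.log N0 ≤ 2 * M' * Real.log N0 := mul_le_mul_of_nonneg_right hi' hn.le
    have hC1 : Cκ ≤ Cκ * N0 := le_mul_of_one_le_right (by linarith) (by linarith)
    have := hSt r φ hrR3 hφ hnn κ κa κn κl hCO.sf (fun g => by
        rw [abs_of_nonneg (hCO.k01 g).1]
        exact (hCO.k01 g).2) (fun g => (hCO.kn g).trans hC1) (fun g => hCO.kl g) (L / 2 + i * Real.log N0) t1
        (by rw [← hL]; linarith) (by rw [← hL]; nlinarith) ht1 ht2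
    have h8 := (abs_le.1 this).1
    linarith
  have hWs : (EX F β α r φ (fun g => κ (g * aM t1)) - ε') / 2 ≤
      ∑ p, P p * ((Kc (ex p) 0 (2 * M') : ℝ) / (2 * ((2 * M' : ℕ) : ℝ))) := by
    have hs1 := Finset.sum_le_sum hst
    rw [Finset.sum_const, Finset.card_range, nsmul_eq_mul, ← l4] at hs1
    have hM2 : (0 : ℝ) < ((2 * M' : ℕ) : ℝ) := by
      exact_mod_cast (by omega : 0 < 2 * M')
    have e : ∑ p, P p * ((Kc (ex p) 0 (2 * M') : ℝ) / (2 * ((2 * M' : ℕ) : ℝ))) =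
        (∑ p, P p * (Kc (ex p) 0 (2 * M') : ℝ)) / (2 * ((2 * M' : ℕ) : ℝ)) := by
      rw [Finset.sum_div]
      exact Finset.sum_congr rfl fun p _ => (mul_div_assoc _ _ _).symm
    rw [e, le_div_iff₀ (by positivity)]
    linarith
  have hDs := FN1_D (Fin (2 * M') → Bool) P (2 * M') y0 ex c4 c5 hM1 l2 hc4.le (by
    rw [hLW] at hB
    exact hB)
  have hLY := h2 (Fin (2 * M') → Bool) P (fun p => VV y0 (2 * M') (ex p))
    (fun p => (Kc (ex p) 0 (2 * M') : ℝ) / (2 * ((2 * M' : ℕ) : ℝ))) (1 / 2 + 2 * ε' + 500 * ρ) ε' l2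
    (fun p => FN1_VV y0 _ hM1 _) (fun p => FN1_WW _ hM1 _) hε'0.le (by positivity) (by linarith)
    (by have := (abs_le.1 hone).1; linarith) (fun a' b' hab => by
      have := hK a' b' ht_a ht_b hab
      rw [hLW, hLW] at this
      exact this)
  exact FN1_end P (fun p => VV y0 (2 * M') (ex p)) _ _ _ (1 / 2 + ε + 500 * ρ) ε' (1 / 2 + 2 * ε' + 500 * ρ) _
    (fun p => by
      simp only [VV]
      ring) hDs hWs hLY (by linarith)

end Pool.Agent.T1
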