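import Pool.Agent.helper47.T1.SpecE1
import Pool.Agent.helper62.QU.All

/-! Row t1:QFR (MP_07c750_an): frame bounds with explicit constants. -/

set_option autoImplicit false

open scoped MatrixGroups ContDiff Topology UpperHalfPlane ComplexConjugate
open UpperHalfPlane MeasureTheory Filter Set

namespace Pool.Agent.T1

open Pool.Agent.RS Pool.Agent.MS

theorem QFR_hF0 (α : ℝ → ℝ) : ‖hF α 0‖ ^ 2 = (∫ x, α x) ^ 2 := by
  have h1 : hF α 0 = ((∫ x, α x : ℝ) : ℂ) := by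
    unfold hF
    rw [← integral_complex_ofReal]
    refine integral_congr_ae (Filter.Eventually.of_forall fun x => ?_)
    simp
  rw [h1, Complex.norm_real, Real.norm_eq_abs, sq_abs]

theorem QFR_one {J : ℕ} (hJ : 1 ≤ J) {M : ℝ} {β : ℝ → ℝ} (h : SBM J M β) : SBM 1 M β :=
  ⟨h.sb, fun j hj x => h.bd j (hj.trans hJ) x⟩

theorem QFR_proof (h1 : QB5_stmt) (h2 : QEF_stmt) (hALH : ALH_stmt) (hCV1 : RS.CV1_stmt)
    (hFL0 : RS.FL0_stmt) (hGR2 : RS.GR2_stmt) (hNR5 : RS.NR5_stmt) : QFR_stmt := by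
  obtain ⟨KB, hKB1, hKB⟩ := h1
  obtain ⟨KE, hKE1, hKE⟩ := h2
  refine ⟨max (max KB KE) 10000, le_trans hKB1 (le_trans (le_max_left _ _) (le_max_left _ _)), ?_⟩
  intro β α M hβ4 hα4 Γ F r hΓ hFd hr
  set K := max (max KB KE) 10000 with hK
  have hKBK : KB ≤ K := le_trans (le_max_left _ _) (le_max_left _ _)
  have hKEK : KE ≤ K := le_trans (le_max_right _ _) (le_max_left _ _)
  have hrB : KB ≤ r := hKBK.trans hr
  have hr4 : (10000 : ℝ) ≤ r := (le_max_right _ _).trans hr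
  have hr0 : 0 < r := by linarith
  have hr1 : 1 ≤ r := by linarith
  have hβ : SB (1 / 4) β := hβ4.sb
  have hα : SB (1 / 4) α := hα4.sb
  have hβ1 := QFR_one (by norm_num) hβ4
  have hα1 := QFR_one (by norm_num) hα4
  obtain ⟨hT, hcc, -, -⟩ := hCV1.2.2 (1 / 4) α β hα hβ
  have hnn : ∀ u : ℍ → ℂ, 0 ≤ nn F u := fun u => integral_nonneg fun z => sq_nonneg _
  have hJ : 0 ≤ ∫ x, β x ^ 2 := integral_nonneg fun x => sq_nonneg _
  have hM4 : 0 ≤ M ^ 4 := by positivity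
  have hp8 : 0 ≤ r ^ (-(1 / 8) : ℝ) := Real.rpow_nonneg hr0.le _
  have hR1 : 1 ≤ r ^ (1 / 8 : ℝ) := Real.one_le_rpow hr1 (by norm_num)
  have hR48 : r ^ (1 / 8 : ℝ) ≤ r ^ (1 / 4 : ℝ) := Real.rpow_le_rpow_of_exponent_le hr1 (by norm_num)
  have hR100 : 100 * r ^ (1 / 8 : ℝ) ≤ r := by
    have e : r = r ^ (7 / 8 : ℝ) * r ^ (1 / 8 : ℝ) := by
      rw [← Real.rpow_add hr0]
      norm_num
    have h7 : (100 : ℝ) ≤ r ^ (7 / 8 : ℝ) := by
      have a1 : (10000 : ℝ) ^ (1 / 2 : ℝ) = 100 := by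
        rw [← Real.sqrt_eq_rpow, show (10000 : ℝ) = 100 ^ 2 by norm_num]
        exact Real.sqrt_sq (by norm_num)
      have a2 : r ^ (1 / 2 : ℝ) ≤ r ^ (7 / 8 : ℝ) := Real.rpow_le_rpow_of_exponent_le hr1 (by norm_num)
      have a3 : (10000 : ℝ) ^ (1 / 2 : ℝ) ≤ r ^ (1 / 2 : ℝ) := Real.rpow_le_rpow (by norm_num) hr4 (by norm_num)
      linarith
    calc 100 * r ^ (1 / 8 : ℝ) ≤ r ^ (7 / 8 : ℝ) * r ^ (1 / 8 : ℝ) :=
          mul_le_mul_of_nonneg_right h7 (by positivity)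
      _ = r := e.symm
  constructor
  · intro hBA u hu
    obtain ⟨-, hα0, hαi⟩ := hBA
    obtain ⟨hA1, -⟩ := hALH (1 / 4) α (by norm_num) (by norm_num) hα hα0
    rw [hαi] at hA1
    have hTst : Tst (pk r (pc β α)) := hFL0.2.1 (1 / 4) r _ hT
    have hcont : Continuous (pk r (pc β α)) :=
      ((QU.A_CA1 ℂ).1 _).1 ((QU.A_CA1 ℂ).2.1 _ 0 ∞ (by exact_mod_cast (bot_le : (0 : ℕ∞) ≤ ⊤)) hTst.1)
    obtain ⟨q, hq0, hq1, hq2⟩ := hNR5 Γ F (pk r (pc β α)) hΓ hFd hcont hTst.2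
    have h5 : qn F (pc β α) r u ≤ q * nn F u := hq1 u hu
    have h6 : r * q ≤ (∫ x, β x ^ 2) + K * M ^ 4 * r ^ (-(1 / 8) : ℝ) := by
      have hE : 0 ≤ K * M ^ 4 * r ^ (-(1 / 8) : ℝ) := by
        have : 0 ≤ K := by linarith
        positivity
      rcases hq2 with h | ⟨lam, v, hv, hvpos, hvq⟩
      · rw [h, mul_zero]
        positivity
      · have hvq' : qn F (pc β α) r v = q * nn F v := hvq
        by_cases hs : ∃ s : ℝ, 0 ≤ s ∧ lam = 1 / 4 + s ^ 2 ∧ |s - r| ≤ r ^ (1 / 8 : ℝ)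
        · obtain ⟨s, -, hlam, hsr⟩ := hs
          rw [hlam] at hv
          have h5 := (hGR2 Γ F hΓ hFd s v hv).2 (pc β α) r hT
          rw [hvq', hcc, mul_comm] at h5
          have h6 : q = bk (pr β α) r s := mul_left_cancel₀ (ne_of_gt hvpos) h5
          rw [h6]
          have h7 := (abs_le.1 (hKB β α M hβ1 hα1 r s hrB (hsr.trans hR48))).2
          have h8 : ‖hF α (s - r)‖ ^ 2 ≤ 1 ^ 2 :=
            pow_le_pow_left₀ (norm_nonneg _) (hA1 (s - r)) 2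
          have h9 : ‖hF α (s - r)‖ ^ 2 * ∫ x : ℝ, β x ^ 2 ≤ 1 ^ 2 * ∫ x : ℝ, β x ^ 2 :=
            mul_le_mul_of_nonneg_right h8 hJ
          have h10 : KB * M ^ 4 * r ^ (-(1 / 8) : ℝ) ≤ K * M ^ 4 * r ^ (-(1 / 8) : ℝ) :=
            mul_le_mul_of_nonneg_right (mul_le_mul_of_nonneg_right hKBK hM4) hp8
          linarith
        · have h5 := hKE β α M hβ4 hα4 Γ F r (r ^ (1 / 8 : ℝ)) lam v hΓ hFd hR1 hR100 hv (by
            intro s hs0 hs1
            by_contra h6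
            exact hs ⟨s, hs0, hs1, not_lt.1 h6⟩)
          rw [hvq'] at h5
          have h6 : q ≤ KE * M ^ 4 / ((r ^ (1 / 8 : ℝ)) ^ 2 * r) := le_of_mul_le_mul_right h5 hvpos
          have h7 : r * (KE * M ^ 4 / ((r ^ (1 / 8 : ℝ)) ^ 2 * r)) = KE * M ^ 4 / (r ^ (1 / 8 : ℝ)) ^ 2 := by
            rw [← mul_div_assoc, mul_comm r (KE * M ^ 4), mul_div_mul_right _ _ hr0.ne']
          have h8 := mul_le_mul_of_nonneg_left h6 hr0.le
          rw [h7] at h8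
          have h9 : KE * M ^ 4 / (r ^ (1 / 8 : ℝ)) ^ 2 ≤ K * M ^ 4 * r ^ (-(1 / 8) : ℝ) := by
            have b1 : 1 / (r ^ (1 / 8 : ℝ)) ^ 2 ≤ r ^ (-(1 / 8) : ℝ) := by
              have b2 : r ^ (-(1 / 8) : ℝ) = 1 / r ^ (1 / 8 : ℝ) := by
                rw [Real.rpow_neg hr0.le]
                exact (one_div _).symm
              rw [b2]
              apply one_div_le_one_div_of_le (by positivity)
              nlinarith
            calc KE * M ^ 4 / (r ^ (1 / 8 : ℝ)) ^ 2 = KE * M ^ 4 * (1 / (r ^ (1 / 8 : ℝ)) ^ 2) := by ring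
              _ ≤ KE * M ^ 4 * r ^ (-(1 / 8) : ℝ) := mul_le_mul_of_nonneg_left b1 (by positivity)
              _ ≤ K * M ^ 4 * r ^ (-(1 / 8) : ℝ) :=
                mul_le_mul_of_nonneg_right (mul_le_mul_of_nonneg_right hKEK hM4) hp8
          linarith
    calc r * qn F (pc β α) r u ≤ r * (q * nn F u) := mul_le_mul_of_nonneg_left h5 hr0.le
      _ = r * q * nn F u := by ring
      _ ≤ ((∫ x, β x ^ 2) + K * M ^ 4 * r ^ (-(1 / 8) : ℝ)) * nn F u := mul_le_mul_of_nonneg_right h6 (hnn u)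
  · intro φ hφ
    have hG := (hGR2 Γ F hΓ hFd r φ hφ).2 (pc β α) r hT
    have h2 := hKB β α M hβ1 hα1 r r hrB (by
      rw [sub_self, abs_zero]
      positivity)
    rw [sub_self, QFR_hF0 α] at h2
    rw [hG, hcc]
    have h3 : r * (nn F φ * bk (pr β α) r r) - (∫ x, α x) ^ 2 * (∫ x, β x ^ 2) * nn F φ =
        nn F φ * (r * bk (pr β α) r r - (∫ x, α x) ^ 2 * ∫ x : ℝ, β x ^ 2) := by ring
    have h10 : KB * M ^ 4 * r ^ (-(1 / 8) : ℝ) ≤ K * M ^ 4 * r ^ (-(1 / 8) : ℝ) :=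
      mul_le_mul_of_nonneg_right (mul_le_mul_of_nonneg_right hKBK hM4) hp8
    rw [h3, abs_mul, abs_of_nonneg (hnn φ), mul_comm (K * M ^ 4 * r ^ (-(1 / 8) : ℝ))]
    exact mul_le_mul_of_nonneg_left (h2.trans h10) (hnn φ)

end Pool.Agent.T1
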